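import Pool.Agent.H287R3.RA.Final

/-!
# Matrices invariant under an alternating group of polylogarithmic degree are not rigid
-/

set_option autoImplicit false

namespace Pool.Agent.Results.MP_0775d3_lc.AlternatingSymmetry

open Equiv Finset

/-- the number of nonzero entries -/
noncomputable def sp {X Y F : Type} [Field F] (S : Matrix X Y F) : ℕ :=
  Nat.card {p : X × Y // S p.1 p.2 ≠ 0}

/-- `A` is `(r, s)`-rigid: it is not the sum of a matrix of rank at most `r` and a matrix with at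
most `s` nonzero entries -/
def Rigid {X Y F : Type} [Fintype X] [Fintype Y] [Field F] (r s : ℝ) (A : Matrix X Y F) : Prop :=
  ¬ ∃ R S : Matrix X Y F, A = R + S ∧ (R.rank : ℝ) ≤ r ∧ (sp S : ℝ) ≤ s

/-- `A` is invariant under the action of `H` on the rows and on the columns -/
def Invariant (H : Type) {X Y F : Type} [Group H] [MulAction H X] [MulAction H Y]
    (A : Matrix X Y F) : Prop :=
  ∀ (g : H) (x : X) (y : Y), A (g • x) (g • y) = A x y

/-- the number of orbits -/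
noncomputable def orbits (H X : Type) [Group H] [MulAction H X] : ℕ :=
  Nat.card (MulAction.orbitRel.Quotient H X)

lemma explicit {X Y F : Type} [Fintype X] [Fintype Y] [Field F] (m j : ℕ)
    [MulAction (alternatingGroup (Fin m)) X] [MulAction (alternatingGroup (Fin m)) Y]
    (A : Matrix X Y F) (hA : Invariant (alternatingGroup (Fin m)) A)
    (hX : Fintype.card X < m.choose (j + 1)) (hY : Fintype.card Y < m.choose (j + 1))
    (hX2 : 12 * Nat.log 2 (Fintype.card X) + 7 ≤ m)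
    (hY2 : 12 * Nat.log 2 (Fintype.card Y) + 7 ≤ m) (hj : 3 * j + 2 ≤ m) :
    ∃ R S : Matrix X Y F, A = R + S ∧ m * R.rank ≤ j ^ 2 * (Fintype.card X + Fintype.card Y) ∧
      ∀ y, Nat.card {x // S x y ≠ 0} ≤ j ^ j * orbits (alternatingGroup (Fin m)) X := by
  obtain ⟨L, h1, h2⟩ := H287R3.RA.main_explicit m j A hA hX hY hX2 hY2 hj
  refine ⟨L, A - L, by simp, h1, fun y => ?_⟩
  have e : ∀ x, ((A - L) x y ≠ 0) ↔ (A x y ≠ L x y) := by
    intro x
    rw [Matrix.sub_apply, sub_ne_zero]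
  refine le_of_eq_of_le ?_ (h2 y)
  exact Nat.card_congr (Equiv.subtypeEquivRight e)

lemma sp_le {X Y F : Type} [Fintype X] [Fintype Y] [Field F] (S : Matrix X Y F) (c : ℕ)
    (h : ∀ y, Nat.card {x // S x y ≠ 0} ≤ c) : sp S ≤ Fintype.card Y * c := by
  classical
  unfold sp
  have e : {p : X × Y // S p.1 p.2 ≠ 0} ≃ Σ y : Y, {x : X // S x y ≠ 0} :=
    { toFun := fun p => ⟨p.1.2, ⟨p.1.1, p.2⟩⟩
      invFun := fun q => ⟨(q.2.1, q.1), q.2.2⟩
      left_inv := fun _ => rfl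
      right_inv := fun _ => rfl }
  rw [Nat.card_congr e, Nat.card_sigma]
  calc ∑ y : Y, Nat.card {x : X // S x y ≠ 0} ≤ ∑ _y : Y, c := Finset.sum_le_sum (fun y _ => h y)
    _ = Fintype.card Y * c := by rw [Finset.sum_const, Finset.card_univ, smul_eq_mul]

/-- **Matrices with alternating symmetry are not rigid** (over every field).
(1) Let `Alt(m)` act on the finite sets `X` and `Y`, with `|X|, |Y| < binomial(m, j+1)`, and let the
matrix `A` with rows indexed by `X` and columns indexed by `Y` be invariant. Then `A = R + S`, where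
the rank of `R` is at most `j² (|X| + |Y|) / m`, and every column of `S` has at most
`j ^ j * (number of orbits on X)` nonzero entries.
(2) For all `ε, δ > 0` there is `K` such that no invariant `N × N` matrix with
`m ≥ K (1 + log₂ N) ^ K` and at most `N ^ (δ / 2)` orbits on the rows is `(ε N, N ^ (1 + δ))`-rigid. -/
theorem result :
    (∀ (X Y F : Type) [Fintype X] [Fintype Y] [Field F] (m j : ℕ)
      [MulAction (alternatingGroup (Fin m)) X] [MulAction (alternatingGroup (Fin m)) Y]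
      (A : Matrix X Y F), Invariant (alternatingGroup (Fin m)) A →
      Fintype.card X < m.choose (j + 1) → Fintype.card Y < m.choose (j + 1) →
      12 * Nat.log 2 (Fintype.card X) + 7 ≤ m → 12 * Nat.log 2 (Fintype.card Y) + 7 ≤ m →
      3 * j + 2 ≤ m →
      ∃ R S : Matrix X Y F, A = R + S ∧ m * R.rank ≤ j ^ 2 * (Fintype.card X + Fintype.card Y) ∧
        ∀ y, Nat.card {x // S x y ≠ 0} ≤ j ^ j * orbits (alternatingGroup (Fin m)) X) ∧
    (∀ ε δ : ℝ, 0 < ε → 0 < δ → ∃ K : ℕ, ∀ (X Y F : Type) [Fintype X] [Fintype Y] [Field F]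
      (m N : ℕ) [MulAction (alternatingGroup (Fin m)) X] [MulAction (alternatingGroup (Fin m)) Y]
      (A : Matrix X Y F), Invariant (alternatingGroup (Fin m)) A →
      Fintype.card X = N → Fintype.card Y = N → 1 ≤ N → K * (Nat.log 2 N + 1) ^ K ≤ m →
      (orbits (alternatingGroup (Fin m)) X : ℝ) ≤ (N : ℝ) ^ (δ / 2) →
      ¬ Rigid (ε * N) ((N : ℝ) ^ (1 + δ)) A) := by
  refine ⟨fun X Y F _ _ _ m j _ _ A hA h1 h2 h3 h4 h5 => explicit m j A hA h1 h2 h3 h4 h5, ?_⟩
  intro ε δ hε hδ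
  set s : ℕ := ⌈2 / δ⌉₊ + 1 with hs
  have hsδ : 1 / (s : ℝ) ≤ δ / 2 := by
    have h1 : 2 / δ ≤ (s : ℝ) := by
      rw [hs]
      push_cast
      have := Nat.le_ceil (2 / δ)
      linarith
    have h2 : (0 : ℝ) < 2 / δ := by positivity
    have h3 : 1 / (s : ℝ) ≤ 1 / (2 / δ) := one_div_le_one_div_of_le h2 h1
    rwa [one_div_div] at h3
  obtain ⟨P, hP⟩ : ∃ P : ℕ, P = 2 ^ (s + 1) := ⟨_, rfl⟩
  obtain ⟨E, hE⟩ : ∃ E : ℕ, E = ⌈2 / ε⌉₊ := ⟨_, rfl⟩
  obtain ⟨K, hK⟩ : ∃ K : ℕ, K = P + 12 + (s + 1) + E := ⟨_, rfl⟩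
  refine ⟨K, ?_⟩
  intro X Y F _ _ _ m N _ _ A hA hX hY hN hm hq
  set l := Nat.log 2 N + 1 with hl
  have hl1 : 1 ≤ l := by omega
  have hlK : l ≤ l ^ K := Nat.le_self_pow (by omega) l
  have hm1 : (2 ^ (s + 1) + 12) * l ^ (s + 1) ≤ m := by
    rw [← hP]
    calc (P + 12) * l ^ (s + 1) ≤ K * l ^ K := by
          apply Nat.mul_le_mul (by omega)
          exact Nat.pow_le_pow_right hl1 (by omega)
      _ ≤ m := hm
  obtain ⟨j, hj1, hj2, hj3⟩ := H287R3.RA.choice s N m (by omega) hN hm1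
  have h12 : 12 * l ≤ m := by
    calc 12 * l ≤ K * l ^ K := Nat.mul_le_mul (by omega) hlK
      _ ≤ m := hm
  obtain ⟨R, S, hRS, hR, hS⟩ := explicit m j A hA (by rw [hX]; exact hj3) (by rw [hY]; exact hj3)
    (by rw [hX]; omega) (by rw [hY]; omega) (by omega)
  rw [Rigid, not_not]
  refine ⟨R, S, hRS, ?_, ?_⟩
  · rw [hX, hY] at hR
    have hmpos : (0 : ℝ) < m := by
      have : 0 < m := by omega
      exact_mod_cast this
    have h1 : (m : ℝ) * R.rank ≤ (j : ℝ) ^ 2 * (N + N) := by exact_mod_cast hR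
    have h2 : 2 * (j : ℝ) ^ 2 ≤ ε * m := by
      have h3 : (j : ℝ) ≤ l := by exact_mod_cast hj2
      have h4 : (j : ℝ) ^ 2 ≤ (l : ℝ) ^ 2 := pow_le_pow_left₀ (Nat.cast_nonneg j) h3 2
      have h5 : 2 / ε ≤ (K : ℝ) := by
        have := Nat.le_ceil (2 / ε)
        have h6 : ((⌈2 / ε⌉₊ : ℕ) : ℝ) ≤ K := by
          have : ⌈2 / ε⌉₊ ≤ K := by rw [← hE]; omega
          exact_mod_cast this
        linarith
      have h6 : 2 ≤ ε * K := by
        rw [div_le_iff₀ hε] at h5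
        linarith
      have h7 : (l : ℝ) ^ 2 ≤ (l : ℝ) ^ K := by
        apply pow_le_pow_right₀ _ (by omega)
        exact_mod_cast hl1
      have h8 : (K : ℝ) * (l : ℝ) ^ K ≤ m := by exact_mod_cast hm
      have h9 : (0 : ℝ) ≤ (l : ℝ) ^ 2 := by positivity
      calc 2 * (j : ℝ) ^ 2 ≤ 2 * (l : ℝ) ^ 2 := by linarith
        _ ≤ (ε * K) * (l : ℝ) ^ 2 := by gcongr
        _ ≤ (ε * K) * (l : ℝ) ^ K := by gcongr
        _ = ε * (K * (l : ℝ) ^ K) := by ring
        _ ≤ ε * m := by gcongr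
    have hN0 : (0 : ℝ) ≤ N := Nat.cast_nonneg N
    have h3 : (m : ℝ) * R.rank ≤ m * (ε * N) := by nlinarith
    exact le_of_mul_le_mul_left h3 hmpos
  · have h1 := sp_le S _ hS
    rw [hY] at h1
    have h2 : (sp S : ℝ) ≤ N * ((j : ℝ) ^ j * orbits (alternatingGroup (Fin m)) X) := by
      exact_mod_cast h1
    have hNR : (1 : ℝ) ≤ N := by exact_mod_cast hN
    have hN0 : (0 : ℝ) < N := by linarith
    have hs0 : (s : ℝ) ≠ 0 := by
      have : s ≠ 0 := by omega
      exact_mod_cast this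
    have h3 : ((j : ℝ) ^ j) ≤ (N : ℝ) ^ (δ / 2) := by
      have h4 : (((j : ℝ) ^ j)) ^ (s : ℕ) ≤ N := by exact_mod_cast hj1
      have h5 : (0 : ℝ) ≤ (j : ℝ) ^ j := by positivity
      calc (j : ℝ) ^ j = (((j : ℝ) ^ j) ^ (s : ℕ)) ^ (1 / (s : ℝ)) := by
            rw [← Real.rpow_natCast ((j : ℝ) ^ j) s, ← Real.rpow_mul h5, mul_one_div_cancel hs0,
              Real.rpow_one]
        _ ≤ (N : ℝ) ^ (1 / (s : ℝ)) := Real.rpow_le_rpow (by positivity) h4 (by positivity)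
        _ ≤ (N : ℝ) ^ (δ / 2) := Real.rpow_le_rpow_of_exponent_le hNR hsδ
    calc (sp S : ℝ) ≤ N * ((j : ℝ) ^ j * orbits (alternatingGroup (Fin m)) X) := h2
      _ ≤ N * ((N : ℝ) ^ (δ / 2) * (N : ℝ) ^ (δ / 2)) := by gcongr
      _ = (N : ℝ) ^ (1 + δ) := by
        rw [← Real.rpow_add hN0, add_halves, Real.rpow_add hN0, Real.rpow_one]

end Pool.Agent.Results.MP_0775d3_lc.AlternatingSymmetry
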