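import Pool.Agent.H422R3.Rig.Free

/-!
# MP_0775d3_lc (Valiant's rigidity problem): matrices with a large free elementary abelian
2-group of symmetries are not rigid.

If an `n × n` matrix `A` over a field of characteristic different from `2` is invariant under a
group `G` of pairs of permutations (acting on rows and on columns), all of whose non-identity
elements are fixed point free involutions on rows and on columns, and `|G| ≥ n ^ (1 - c)`, then
`A` is not `(ε n, n ^ (1 + δ))`-rigid, for every `ε > 0`, every `δ > c` and all large `n`.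
-/

namespace Pool.Agent.Results.MP_0775d3_lc.LargeSymmetry

/-- `A` is `(r, s)`-rigid: there is no decomposition `A = R + S` with `rank R ≤ r` and at most
`s` nonzero entries in `S`. -/
def IsRigid {n : ℕ} {K : Type*} [Field K] (r s : ℝ) (A : Matrix (Fin n) (Fin n) K) : Prop :=
  ¬ ∃ R S : Matrix (Fin n) (Fin n) K, A = R + S ∧ (R.rank : ℝ) ≤ r ∧
    (({p : Fin n × Fin n | S p.1 p.2 ≠ 0}.ncard : ℕ) : ℝ) ≤ s

/-- `G` is a group of symmetries of `A`: each `(σ, τ) ∈ G` permutes rows by `σ` and columns by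
`τ`, and leaves `A` unchanged. It is elementary abelian of exponent `2` (each element squares to
the identity) and each element other than the identity moves every row and every column. -/
structure IsFreeSymmetry {n : ℕ} {K : Type*} [Field K] (A : Matrix (Fin n) (Fin n) K)
    (G : Subgroup (Equiv.Perm (Fin n) × Equiv.Perm (Fin n))) : Prop where
  square : ∀ g ∈ G, g * g = 1
  free_rows : ∀ g ∈ G, g ≠ 1 → ∀ i, g.1 i ≠ i
  free_columns : ∀ g ∈ G, g ≠ 1 → ∀ j, g.2 j ≠ j
  invariant : ∀ g ∈ G, ∀ i j, A (g.1 i) (g.2 j) = A i j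

theorem result (K : Type*) [Field K] (h2 : (2 : K) ≠ 0) (ε δ c : ℝ) (hε : 0 < ε)
    (hcδ : c < δ) (hc1 : c < 1) :
    ∃ n₀ : ℕ, ∀ n ≥ n₀, ∀ A : Matrix (Fin n) (Fin n) K,
      (∃ G : Subgroup (Equiv.Perm (Fin n) × Equiv.Perm (Fin n)),
        IsFreeSymmetry A G ∧ (n : ℝ) ^ (1 - c) ≤ Nat.card G) →
      ¬ IsRigid (ε * n) ((n : ℝ) ^ (1 + δ)) A := by
  classical
  obtain ⟨n₀, hn₀⟩ := Pool.Agent.H422R3.Rig.free (K := K) h2 ε δ c hε hcδ hc1
  refine ⟨n₀, ?_⟩
  rintro n hn A ⟨G, hG, hcard⟩ hrig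
  obtain ⟨R, S, hRS, hR, hS⟩ := hn₀ n hn A G hG.square
    (fun g hg hne => ⟨hG.free_rows g hg hne, hG.free_columns g hg hne⟩) hG.invariant hcard
  refine hrig ⟨R, S, hRS, hR, ?_⟩
  have h1 : {p : Fin n × Fin n | S p.1 p.2 ≠ 0}.ncard = Pool.Agent.H422R3.Rig.nnz S := by
    unfold Pool.Agent.H422R3.Rig.nnz
    rw [← Set.ncard_coe_finset]
    congr 1
    ext p
    simp
  rw [h1]
  exact hS

end Pool.Agent.Results.MP_0775d3_lc.LargeSymmetry
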